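import Mathlib

namespace Pool.Agent.Results.MP_294a3d_co.Fan

open Finset

variable {V : Type} [Fintype V] [DecidableEq V]

def Chordal (G : SimpleGraph V) : Prop :=
  ∀ k, 4 ≤ k → IsEmpty (SimpleGraph.cycleGraph k ↪g G)

def Simplicial (G : SimpleGraph V) (v : V) : Prop := G.IsClique (G.neighborSet v)

def mv (C : V → ℕ) (u v : V) : V → ℕ :=
  fun w => if w = u then C w - 2 else if w = v then C w + 1 else C w

def Step (G : SimpleGraph V) (C C' : V → ℕ) : Prop :=
  ∃ u v, G.Adj u v ∧ 2 ≤ C u ∧ C' = mv C u v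

def Solvable (G : SimpleGraph V) (D C : V → ℕ) : Prop :=
  ∃ C', Relation.ReflTransGen (Step G) C C' ∧ ∀ v, D v ≤ C' v

def Maximal (G : SimpleGraph V) (D C : V → ℕ) : Prop :=
  ¬ Solvable G D C ∧ ∀ v, Solvable G D (C + Pi.single v 1)

def Extremal (G : SimpleGraph V) (D C : V → ℕ) : Prop :=
  Maximal G D C ∧ ∀ C', Maximal G D C' → ∑ v, C' v ≤ ∑ v, C v

/-- The path 0-1-2-3-4 together with the vertex 5 joined to all of it. -/
def G0 : SimpleGraph (Fin 6) :=
  SimpleGraph.fromRel (fun u v => u.val = 5 ∨ u.val + 1 = v.val)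

instance : DecidableRel G0.Adj := fun a b =>
  decidable_of_iff (a.val ≠ b.val ∧ ((a.val = 5 ∨ a.val + 1 = b.val) ∨
    (b.val = 5 ∨ b.val + 1 = a.val))) (by
      simp only [G0, SimpleGraph.fromRel_adj, ne_eq, Fin.ext_iff])

def D0 : Fin 6 → ℕ := ![1, 0, 0, 0, 1, 0]
def C0 : Fin 6 → ℕ := ![0, 0, 7, 0, 0, 0]

def moves : List (Fin 6 × Fin 6) :=
  [(1, 0), (3, 4), (5, 0), (5, 4), (2, 5), (0, 5), (4, 5), (1, 5), (3, 5), (2, 1), (2, 3),
    (0, 1), (4, 3), (1, 2), (3, 2)]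

def solv : ℕ → (Fin 6 → ℕ) → Bool
  | 0, C => decide (1 ≤ C 0) && decide (1 ≤ C 4)
  | k + 1, C => (decide (1 ≤ C 0) && decide (1 ≤ C 4)) ||
      moves.any (fun e => decide (2 ≤ C e.1) && solv k (mv C e.1 e.2))

lemma goal (C : Fin 6 → ℕ) (h : (decide (1 ≤ C 0) && decide (1 ≤ C 4)) = true) :
    Solvable G0 D0 C := by
  simp only [Bool.and_eq_true, decide_eq_true_eq] at h
  refine ⟨C, .refl, fun v => ?_⟩
  fin_cases v <;> simp [D0, h.1, h.2]

lemma solv_sound : ∀ k C, solv k C = true → Solvable G0 D0 C := by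
  intro k
  induction k with
  | zero => exact goal
  | succ k ih =>
    intro C h
    simp only [solv, Bool.or_eq_true, List.any_eq_true] at h
    rcases h with h | ⟨e, he, h⟩
    · exact goal C h
    · simp only [Bool.and_eq_true, decide_eq_true_eq] at h
      obtain ⟨C', h1, h2⟩ := ih _ h.2
      have : ∀ e ∈ moves, G0.Adj e.1 e.2 := by decide
      exact ⟨C', .head ⟨e.1, e.2, this e he, h.1, rfl⟩ h1, h2⟩

lemma mono {D C C' : Fin 6 → ℕ} (h : Solvable G0 D C) (hle : C ≤ C') : Solvable G0 D C' := by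
  obtain ⟨E, h1, h2⟩ := h
  induction h1 using Relation.ReflTransGen.head_induction_on generalizing C' with
  | refl => exact ⟨C', .refl, fun v => (h2 v).trans (hle v)⟩
  | head hs _ ih =>
    obtain ⟨u, v, a, b, rfl⟩ := hs
    obtain ⟨F, f1, f2⟩ := ih (C' := mv C' u v) (fun w => by
      have : _ ≤ C' w := hle w
      simp only [mv]
      split_ifs <;> omega)
    exact ⟨F, .head ⟨u, v, a, b.trans (hle u), rfl⟩ f1, f2⟩

lemma all8 : ∀ a < 9, ∀ b < 9 - a, ∀ c < 9 - a - b, ∀ d < 9 - a - b - c,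
    ∀ e < 9 - a - b - c - d, solv 6 ![a, b, c, d, e, 8 - a - b - c - d - e] = true := by
  decide +kernel

lemma all7 : ∀ b < 2, ∀ c < 2, ∀ d < 2, ∀ f < 2, ∀ a < 8 - b - c - d - f,
    solv 6 ![a, b, c, d, 7 - a - b - c - d - f, f] = true := by
  decide +kernel

lemma eta (C : Fin 6 → ℕ) : C = ![C 0, C 1, C 2, C 3, C 4, C 5] := by
  funext v; fin_cases v <;> rfl

lemma big (C : Fin 6 → ℕ) (h : 8 ≤ ∑ v, C v) : Solvable G0 D0 C := by
  rw [Fin.sum_univ_six] at h
  have key : ∃ a b c d e : ℕ, a ≤ C 0 ∧ b ≤ C 1 ∧ c ≤ C 2 ∧ d ≤ C 3 ∧ e ≤ C 4 ∧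
      a + b + c + d + e ≤ 8 ∧ 8 - a - b - c - d - e ≤ C 5 := by
    refine ⟨min (C 0) 8, min (C 1) (8 - C 0), min (C 2) (8 - C 0 - C 1),
      min (C 3) (8 - C 0 - C 1 - C 2), min (C 4) (8 - C 0 - C 1 - C 2 - C 3), ?_⟩
    omega
  obtain ⟨a, b, c, d, e, h0, h1, h2, h3, h4, h5, h6⟩ := key
  refine mono (solv_sound _ _ (all8 a (by omega) b (by omega) c (by omega) d (by omega) e
    (by omega))) (fun v => ?_)
  fin_cases v <;> first | simpa | exact h6

def wt (C : Fin 6 → ℕ) : ℕ := 4 * C 0 + 2 * C 1 + C 2 + 2 * C 3 + 4 * C 4 + 2 * C 5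

lemma unsolv : ¬ Solvable G0 D0 C0 := by
  rintro ⟨E, h1, h2⟩
  have : wt E ≤ 7 := by
    clear h2
    induction h1 with
    | refl => decide
    | @tail b c _ hs ih =>
      obtain ⟨u, v, a, h, rfl⟩ := hs
      revert a
      fin_cases u <;> fin_cases v <;> intro a <;> first
        | exact absurd a (by decide)
        | (simp [wt, mv] at h ih ⊢; omega)
  have a := h2 0
  have b := h2 4
  simp [D0] at a b
  unfold wt at this
  omega

lemma chordal : Chordal G0 := by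
  intro k hk
  obtain ⟨m, rfl⟩ : ∃ m, k = m + 4 := ⟨k - 4, by omega⟩
  refine ⟨fun f => ?_⟩
  have adj1 : ∀ i : Fin (m + 4), (SimpleGraph.cycleGraph (m + 4)).Adj i (i + 1) := fun i => by
    rw [SimpleGraph.cycleGraph_adj]; right; simp
  have v2 : ((1 + 1 : Fin (m + 4)) : ℕ) = 2 := by
    rw [Fin.val_add]; exact Nat.mod_eq_of_lt (show 1 + 1 < m + 4 by omega)
  have v3 : ((1 + 1 + 1 : Fin (m + 4)) : ℕ) = 3 := by
    rw [Fin.val_add, v2]; exact Nat.mod_eq_of_lt (show 2 + 1 < m + 4 by omega)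
  have n2 : ∀ i : Fin (m + 4), i ≠ i + 1 + 1 := fun i h => by
    rw [add_assoc] at h
    rw [left_eq_add.1 h] at v2
    simp at v2
  have na : ∀ i : Fin (m + 4), ¬ (SimpleGraph.cycleGraph (m + 4)).Adj i (i + 1 + 1) := fun i h => by
    rw [SimpleGraph.cycleGraph_adj] at h
    rcases h with h | h
    · have e : (1 + 1 + 1 : Fin (m + 4)) = 0 := by
        have e1 : i - (i + 1 + 1) + (1 + 1) = 0 := by abel
        rw [h] at e1
        rw [← e1]; abel
      rw [e] at v3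
      simp at v3
    · have e1 : i + 1 + 1 - i = 1 + 1 := by abel
      rw [e1] at h
      rw [h] at v2
      simp at v2
  have no5 : ∀ i, f i ≠ 5 := fun i h => by
    apply na i
    rw [← f.map_adj_iff, h]
    have : f (i + 1 + 1) ≠ 5 := fun e => n2 i (f.injective (h.trans e.symm))
    revert this
    generalize f (i + 1 + 1) = x
    revert x; decide
  obtain ⟨j, _, hj⟩ := exists_max_image (univ : Finset (Fin (m + 4))) (fun i => f (i + 1)) ⟨0, by simp⟩
  have a1 := f.map_adj_iff.2 (adj1 j)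
  have a2 := f.map_adj_iff.2 (adj1 (j + 1))
  have l1 : f j ≤ f (j + 1) := by simpa using hj (j - 1) (mem_univ _)
  have l2 : f (j + 1 + 1) ≤ f (j + 1) := hj (j + 1) (mem_univ _)
  have key : ∀ x y z : Fin 6, y ≠ 5 → G0.Adj x y → G0.Adj y z → x ≤ y → z ≤ y → x = z := by decide
  exact n2 j (f.injective (key _ _ _ (no5 _) a1 a2 l1 l2))

theorem result : ∃ (n : ℕ) (G : SimpleGraph (Fin n)) (D C : Fin n → ℕ),
    G.Connected ∧ Chordal G ∧ Extremal G D C ∧
    ∀ C' : Fin n → ℕ, ¬ Solvable G D C' → ∑ v, C v ≤ ∑ v, C' v →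
      ∃ v, ¬ Simplicial G v ∧ 2 ≤ C' v := by
  have hs : ∑ v, C0 v = 7 := by decide
  refine ⟨6, G0, D0, C0, by decide +kernel, chordal, ⟨⟨unsolv, fun v => big _ ?_⟩, fun C' h => ?_⟩,
    fun C' h1 h2 => ?_⟩
  · simp only [Pi.add_apply, sum_add_distrib, hs]; simp
  · by_contra hc
    exact h.1 (big _ (by omega))
  · by_contra hc
    push Not at hc
    have ns : ∀ v x y : Fin 6, G0.Adj v x → G0.Adj v y → x ≠ y → ¬ G0.Adj x y → C' v < 2 :=
      fun v x y a b c d => hc v (fun h => d (h a b c))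
    have b1 := ns 1 0 2 (by decide) (by decide) (by decide) (by decide)
    have b2 := ns 2 1 3 (by decide) (by decide) (by decide) (by decide)
    have b3 := ns 3 2 4 (by decide) (by decide) (by decide) (by decide)
    have b5 := ns 5 0 2 (by decide) (by decide) (by decide) (by decide)
    have h7 : ∑ v, C' v = 7 := by
      by_contra h8
      exact h1 (big _ (by omega))
    rw [Fin.sum_univ_six] at h7
    apply h1
    have := solv_sound _ _ (all7 (C' 1) b1 (C' 2) b2 (C' 3) b3 (C' 5) b5 (C' 0) (by omega))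
    have e : 7 - C' 0 - C' 1 - C' 2 - C' 3 - C' 5 = C' 4 := by omega
    rw [e, ← eta] at this
    exact this

end Pool.Agent.Results.MP_294a3d_co.Fan
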